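import Pool.Agent.H3R4.LD.Space

/-!
# Consistently there is a Lusin space which is a gamma-space

The space is the set of nodes of a coherent Suslin tree (constructed from diamond in the starting
files `Pool.Agent.H3R4.LD`), with the topology generated by the cones and their complements. Nowhere
dense sets are countable by the Suslin property. Given an open `ω`-cover, there is a countable level
`γ` such that all finite sets consisting of nodes below `γ` and of cones of nodes of level `γ` are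
covered by members of the cover: for a finite set of finite modifications `c`, the nodes `u` such
that the cones of all `u + c` are contained in one member of the cover are dense, because the nodes
themselves are points of the space. Since there are only countably many nodes below or on level
`γ`, this yields a `γ`-subcover.
-/

set_option autoImplicit false

open Set Topology TopologicalSpace

namespace Pool.Agent.Results.MP_1599f7_gt.LusinGamma

open Pool.Agent.H3R4.LD
open Pool.Agent.Helper292.ForceCH (Om OmegaOnePreserved DiamondHolds exists_bound)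

/-- A Lusin space in the sense of Kunen. -/
structure IsLusinSpace (X : Type) [TopologicalSpace X] : Prop where
  t2 : T2Space X
  nowhereDense : ∀ N : Set X, IsNowhereDense N → N.Countable
  isolated : {x : X | IsOpen {x}}.Countable
  uncountable : Uncountable X

/-- `𝓤` is a family of open subsets of `X` covering `X`, and `X` does not belong to it. -/
structure IsOpenCover (X : Type) [TopologicalSpace X] (𝓤 : Set (Set X)) : Prop where
  isOpen : ∀ U ∈ 𝓤, IsOpen U
  covers : ⋃₀ 𝓤 = univ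
  proper : univ ∉ 𝓤

/-- `ω`-covers. -/
def IsOmegaCover (X : Type) [TopologicalSpace X] (𝓤 : Set (Set X)) : Prop :=
  IsOpenCover X 𝓤 ∧ ∀ F : Set X, F.Finite → ∃ U ∈ 𝓤, F ⊆ U

/-- `γ`-covers. -/
def IsGammaCover (X : Type) [TopologicalSpace X] (𝓤 : Set (Set X)) : Prop :=
  IsOpenCover X 𝓤 ∧ ∀ x : X, {U ∈ 𝓤 | x ∉ U}.Finite

/-- `γ`-spaces: every open `ω`-cover has a subfamily which is an infinite `γ`-cover. -/
def IsGammaSpace (X : Type) [TopologicalSpace X] : Prop :=
  ∀ 𝓤 : Set (Set X), IsOmegaCover X 𝓤 → ∃ 𝓥 ⊆ 𝓤, 𝓥.Infinite ∧ IsGammaCover X 𝓥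

variable {f : Om → Om → ℤ}

/-- Dense upward closed sets of nodes contain all nodes of sufficiently high level. -/
theorem exists_level (hS : ∀ S : Set Node, (∀ s ∈ S, ∀ t ∈ S, le f s t → s = t) → S.Countable)
    (D : Set Node) (hup : ∀ u v, u ∈ D → le f u v → v ∈ D)
    (hdense : ∀ s, ∃ u ∈ D, le f s u) : ∃ γ : Om, ∀ t : Node, γ ≤ t.lv → t ∈ D := by
  let A : Set Node := {u | u ∈ D ∧ ∀ v ∈ D, le f v u → v = u}
  have hA : A.Countable := hS A fun s hs t ht h => ht.2 s hs.1 h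
  have hmin : ∀ u ∈ D, ∃ a ∈ A, le f a u := by
    intro u hu
    have hwf : WellFounded (fun x y : Om => x < y) := wellFounded_lt
    have hne : ((fun v : Node => v.lv) '' {v | v ∈ D ∧ le f v u}).Nonempty :=
      ⟨_, u, ⟨hu, le_refl u⟩, rfl⟩
    obtain ⟨_, ⟨v, ⟨hv1, hv2⟩, rfl⟩, hv3⟩ := hwf.has_min _ hne
    refine ⟨v, ⟨hv1, fun w hw hwv => ?_⟩, hv2⟩
    have h1 : ¬ w.lv < v.lv := hv3 _ ⟨w, ⟨hw, le_trans hwv hv2⟩, rfl⟩
    exact eq_of_le hwv (le_antisymm hwv.1 (not_lt.1 h1))
  obtain ⟨γ, hγ⟩ := exists_ub (hA.image fun a => a.lv)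
  refine ⟨γ, fun t ht => ?_⟩
  obtain ⟨u, hu, htu⟩ := hdense t
  obtain ⟨a, ha, hau⟩ := hmin u hu
  have h1 : a.lv < γ := hγ _ ⟨a, ha, rfl⟩
  exact hup a t ha.1 (le_of_lv_le hau htu (h1.le.trans ht))

/-- The nodes extending the modification of `u` by `c`. -/
def shc (f : Om → Om → ℤ) (u : Node) (c : Om →₀ ℤ) : Set (Sp f) :=
  {y | u.lv ≤ Node.lv y ∧ ∀ ξ < u.lv, val f y ξ = val f u ξ + c ξ}

theorem shc_mono {u v : Node} (h : le f u v) (c : Om →₀ ℤ) : shc f v c ⊆ shc f u c := by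
  rintro y ⟨h1, h2⟩
  exact ⟨h.1.trans h1, fun ξ hξ => by rw [h2 ξ (hξ.trans_le h.1), h.2 ξ hξ]⟩

/-- A neighbourhood of `x` contains all proper extensions of `x` avoiding finitely many values at
the level of `x`. -/
theorem exists_avoid {U : Set (Sp f)} (hU : IsOpen U) {x : Node} (hx : (x : Sp f) ∈ U) :
    ∃ M : Finset ℤ, ∀ y : Node, le f x y → x.lv < y.lv → val f y x.lv ∉ M → (y : Sp f) ∈ U := by
  classical
  obtain ⟨I, hI⟩ := exists_finset hU hx
  refine ⟨I.image fun p => val f p x.lv, fun y hxy hlt hy => hI y fun p hp => ⟨fun h => ?_,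
    fun h => le_trans h hxy⟩⟩
  rcases le_or_gt p.lv x.lv with h1 | h1
  · exact le_of_lv_le h hxy h1
  · exfalso
    apply hy
    rw [Finset.mem_image]
    exact ⟨p, hp, h.2 _ h1⟩

/-- The key density argument. -/
theorem key (hc : ∀ α, ∀ β < α, {ξ | ξ < β ∧ f α ξ ≠ f β ξ}.Finite)
    (hS : ∀ S : Set Node, (∀ s ∈ S, ∀ t ∈ S, le f s t → s = t) → S.Countable)
    {𝓤 : Set (Set (Sp f))} (h𝓤 : IsOmegaCover (Sp f) 𝓤) (F : Finset Node)
    (C : Finset (Om →₀ ℤ)) : ∃ γ : Om, ∀ t : Node, γ ≤ t.lv →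
      ∃ U ∈ 𝓤, (∀ p ∈ F, (p : Sp f) ∈ U) ∧ ∀ c ∈ C, shc f t c ⊆ U := by
  classical
  refine exists_level hS {t | ∃ U ∈ 𝓤, (∀ p ∈ F, (p : Sp f) ∈ U) ∧ ∀ c ∈ C, shc f t c ⊆ U} ?_ ?_
  · rintro u v ⟨U, hU, h1, h2⟩ huv
    exact ⟨U, hU, h1, fun c hc' => (shc_mono huv c).trans (h2 c hc')⟩
  · intro s0
    -- extend `s0` above the supports
    obtain ⟨γ, hγ⟩ := exists_ub (S := insert s0.lv (⋃ c ∈ C, (c.support : Set Om)))
      ((C.countable_toSet.biUnion fun c _ => c.support.countable_toSet).insert _)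
    obtain ⟨s, hs1, hs2, -⟩ := exists_node_ge hc s0 0 (hγ s0.lv (mem_insert _ _))
    have hsupp : ∀ c ∈ C, ∀ ξ ∈ c.support, ξ < s.lv := by
      intro c hc' ξ hξ
      rw [hs1]
      exact hγ ξ (Or.inr (mem_iUnion₂.2 ⟨c, hc', hξ⟩))
    -- the modified nodes
    have hx : ∀ c : Om →₀ ℤ, ∃ x : Node, c ∈ C → x.lv = s.lv ∧ ∀ ξ < s.lv,
        val f x ξ = val f s ξ + c ξ := by
      intro c
      by_cases h : c ∈ C
      · obtain ⟨p, hp1, hp2⟩ := exists_node (f := f) (α := s.lv)
          (g := fun ξ => val f s ξ + c ξ) (by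
            refine ((val_finite (f := f) s).union c.support.finite_toSet).subset ?_
            rintro ξ ⟨h1, h2⟩
            by_cases h3 : c ξ = 0
            · left
              simp only [h3, add_zero] at h2
              exact ⟨h1, h2⟩
            · right
              exact Finset.mem_coe.2 (Finsupp.mem_support_iff.2 h3))
        exact ⟨p, fun _ => ⟨hp1, hp2⟩⟩
      · exact ⟨s, fun h' => absurd h' h⟩
    choose x hx using hx
    obtain ⟨U, hU, hFU⟩ := h𝓤.2 ((F : Set Node) ∪ x '' (C : Set (Om →₀ ℤ)))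
      (F.finite_toSet.union (C.finite_toSet.image _))
    have hM : ∀ c : Om →₀ ℤ, ∃ M : Finset ℤ, c ∈ C → ∀ y : Node, le f (x c) y →
        (x c).lv < y.lv → val f y (x c).lv ∉ M → (y : Sp f) ∈ U := by
      intro c
      by_cases h : c ∈ C
      · obtain ⟨M, hM⟩ := exists_avoid (h𝓤.1.isOpen U hU) (x := x c)
          (hFU (Or.inr ⟨c, h, rfl⟩))
        exact ⟨M, fun _ => hM⟩
      · exact ⟨∅, fun h' => absurd h' h⟩
    choose M hM using hM
    obtain ⟨m, hm⟩ := Infinite.exists_notMem_finset (C.biUnion M)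
    obtain ⟨γ', hγ'⟩ := exists_bound (fun _ => s.lv)
    obtain ⟨u, hu1, hu2, hu3⟩ := exists_node_ge hc s m (hγ' 0)
    refine ⟨u, ⟨U, hU, fun p hp => hFU (Or.inl hp), fun c hcC y hy => ?_⟩, le_trans hs2 hu2⟩
    obtain ⟨hx1, hx2⟩ := hx c hcC
    have hsu : s.lv < u.lv := hu1 ▸ hγ' 0
    refine hM c hcC y ⟨?_, fun ξ hξ => ?_⟩ ?_ ?_
    · rw [hx1]
      exact hsu.le.trans hy.1
    · rw [hx1] at hξ
      rw [hx2 ξ hξ, hy.2 ξ (hξ.trans hsu), hu2.2 ξ hξ]
    · rw [hx1]
      exact hsu.trans_le hy.1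
    · rw [hx1, hy.2 s.lv hsu, hu3]
      have h0 : c s.lv = 0 := by
        by_contra hne
        exact lt_irrefl _ (hsupp c hcC s.lv (Finsupp.mem_support_iff.2 hne))
      rw [h0, add_zero]
      exact fun h => hm (Finset.mem_biUnion.2 ⟨c, hcC, h⟩)

theorem isGammaSpace (hc : ∀ α, ∀ β < α, {ξ | ξ < β ∧ f α ξ ≠ f β ξ}.Finite)
    (hS : ∀ S : Set Node, (∀ s ∈ S, ∀ t ∈ S, le f s t → s = t) → S.Countable) :
    IsGammaSpace (Sp f) := by
  classical
  intro 𝓤 h𝓤
  choose g hg using key hc hS h𝓤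
  -- a majorant for all data of level at most `β`
  have hG : ∀ β : Om, ∃ G : Om, ∀ (F : Finset Node) (C : Finset (Om →₀ ℤ)),
      (∀ p ∈ F, p.lv ≤ β) → (∀ c ∈ C, ∀ ξ ∈ c.support, ξ ≤ β) → g F C < G := by
    intro β
    obtain ⟨b, hb⟩ := exists_bound (fun _ => β)
    have h1 : {F : Finset Node | ∀ p ∈ F, p.lv ≤ β}.Countable := by
      have h2 : {t : Set Node | t.Finite ∧ t ⊆ {p : Node | p.lv < b}}.Countable :=
        Set.countable_ofPred_finite_subset (countable_level b)
      refine Set.countable_of_injective_of_countable_image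
        (f := fun F : Finset Node => (F : Set Node)) (fun F _ F' _ h => Finset.coe_injective h)
        (h2.mono ?_)
      rintro _ ⟨F, hF, rfl⟩
      exact ⟨F.finite_toSet, fun p hp => (hF p hp).trans_lt (hb 0)⟩
    have h3 : {C : Finset (Om →₀ ℤ) | ∀ c ∈ C, ∀ ξ ∈ c.support, ξ ≤ β}.Countable := by
      have h2 : {t : Set (Om →₀ ℤ) | t.Finite ∧
          t ⊆ {c : Om →₀ ℤ | ∀ ξ ∈ c.support, ξ < b}}.Countable :=
        Set.countable_ofPred_finite_subset (countable_finsupp b)
      refine Set.countable_of_injective_of_countable_image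
        (f := fun F : Finset (Om →₀ ℤ) => (F : Set (Om →₀ ℤ)))
        (fun F _ F' _ h => Finset.coe_injective h) (h2.mono ?_)
      rintro _ ⟨C, hC, rfl⟩
      exact ⟨C.finite_toSet, fun c hc' ξ hξ => (hC c hc' ξ hξ).trans_lt (hb 0)⟩
    obtain ⟨G, hG⟩ := exists_ub ((h1.prod h3).image fun q => g q.1 q.2)
    exact ⟨G, fun F C hF hC => hG _ ⟨(F, C), ⟨hF, hC⟩, rfl⟩⟩
  choose G hG using hG
  obtain ⟨γ, -, ⟨β0, hβ0⟩, hγ⟩ := (club_closure G).1 (Classical.arbitrary Om)
  -- a node of level `γ`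
  obtain ⟨t, ht, -⟩ := exists_node (f := f) (α := γ) (g := f γ) (by simp)
  -- finite data below `γ`
  have hmain : ∀ (F : Finset Node) (C : Finset (Om →₀ ℤ)), (∀ p ∈ F, p.lv < γ) →
      (∀ c ∈ C, ∀ ξ ∈ c.support, ξ < γ) →
      ∃ U ∈ 𝓤, (∀ p ∈ F, (p : Sp f) ∈ U) ∧ ∀ c ∈ C, shc f t c ⊆ U := by
    intro F C hF hC
    let E : Finset Om := insert β0 (F.image Node.lv ∪ C.biUnion fun c => c.support)
    have hE : E.Nonempty := ⟨β0, Finset.mem_insert_self _ _⟩
    have hlt : E.max' hE < γ := by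
      refine (Finset.max'_lt_iff E hE).2 fun ξ hξ => ?_
      rcases Finset.mem_insert.1 hξ with rfl | h
      · exact hβ0
      · rcases Finset.mem_union.1 h with h | h
        · obtain ⟨p, hp, rfl⟩ := Finset.mem_image.1 h
          exact hF p hp
        · obtain ⟨c, hc', h⟩ := Finset.mem_biUnion.1 h
          exact hC c hc' ξ h
    refine hg F C t ?_
    rw [ht]
    refine ((hG (E.max' hE) F C (fun p hp => ?_) fun c hc' ξ hξ => ?_).trans (hγ _ hlt)).le
    · exact Finset.le_max' _ _ (Finset.mem_insert_of_mem (Finset.mem_union_left _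
        (Finset.mem_image_of_mem _ hp)))
    · exact Finset.le_max' _ _ (Finset.mem_insert_of_mem (Finset.mem_union_right _
        (Finset.mem_biUnion.2 ⟨c, hc', hξ⟩)))
  -- enumerations
  obtain ⟨e1, he1⟩ : ∃ e : ℕ → Node, {p : Node | p.lv < γ} = range e := by
    refine (countable_level γ).exists_eq_range ?_
    obtain ⟨p, hp, -⟩ := exists_node (f := f) (α := β0) (g := f β0) (by simp)
    exact ⟨p, by rw [mem_ofPred_eq, hp]; exact hβ0⟩
  obtain ⟨e2, he2⟩ : ∃ e : ℕ → (Om →₀ ℤ), {c : Om →₀ ℤ | ∀ ξ ∈ c.support, ξ < γ} = range e :=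
    (countable_finsupp γ).exists_eq_range ⟨0, by simp⟩
  have hU : ∀ n : ℕ, ∃ U ∈ 𝓤, (∀ i < n, (e1 i : Sp f) ∈ U) ∧ ∀ i < n, shc f t (e2 i) ⊆ U := by
    intro n
    obtain ⟨U, hU, h1, h2⟩ := hmain ((Finset.range n).image e1) ((Finset.range n).image e2)
      (by
        intro p hp
        obtain ⟨i, -, rfl⟩ := Finset.mem_image.1 hp
        have : e1 i ∈ {p : Node | p.lv < γ} := he1 ▸ mem_range_self i
        exact this)
      (by
        intro c hc'
        obtain ⟨i, -, rfl⟩ := Finset.mem_image.1 hc'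
        have : e2 i ∈ {c : Om →₀ ℤ | ∀ ξ ∈ c.support, ξ < γ} := he2 ▸ mem_range_self i
        exact this)
    exact ⟨U, hU, fun i hi => h1 _ (Finset.mem_image_of_mem _ (Finset.mem_range.2 hi)),
      fun i hi => h2 _ (Finset.mem_image_of_mem _ (Finset.mem_range.2 hi))⟩
  choose U hU h1 h2 using hU
  have hev : ∀ x : Sp f, ∃ i : ℕ, ∀ n, i < n → x ∈ U n := by
    intro x
    rcases lt_or_ge (Node.lv x) γ with h | h
    · have : (x : Node) ∈ range e1 := he1 ▸ h
      obtain ⟨i, hi⟩ := this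
      exact ⟨i, fun n hn => hi ▸ h1 n i hn⟩
    · obtain ⟨q, hq1, hq2⟩ := exists_restrict hc x h
      have hmem : q.c - t.c ∈ {c : Om →₀ ℤ | ∀ ξ ∈ c.support, ξ < γ} := by
        intro ξ hξ
        by_contra hlt
        rw [Finsupp.mem_support_iff, Finsupp.sub_apply, Node.c_eq_zero q (hq1.symm ▸ hlt),
          Node.c_eq_zero t (ht.symm ▸ hlt)] at hξ
        exact hξ (sub_self 0)
      rw [he2] at hmem
      obtain ⟨i, hi⟩ := hmem
      refine ⟨i, fun n hn => h2 n i hn ⟨?_, fun ξ hξ => ?_⟩⟩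
      · rw [ht]
        exact h
      · rw [hi, Finsupp.sub_apply, ← hq2.2 ξ (by rw [hq1, ← ht]; exact hξ), val, val, hq1, ht]
        ring
  refine ⟨range U, ?_, ?_, ⟨?_, ?_, ?_⟩, ?_⟩
  · rintro _ ⟨n, rfl⟩
    exact hU n
  · -- otherwise some member occurs infinitely often and contains all points
    intro hfin
    have hfin' : Finite (range U) := hfin
    obtain ⟨W, hW⟩ := Finite.exists_infinite_fiber (Set.rangeFactorization U)
    have hWinf : ((Set.rangeFactorization U) ⁻¹' {W}).Infinite := Set.infinite_coe_iff.1 hW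
    have huniv : (W : Set (Sp f)) = univ := by
      refine eq_univ_of_forall fun x => ?_
      obtain ⟨i, hi⟩ := hev x
      obtain ⟨n, hn, hin⟩ := hWinf.exists_gt i
      have h3 : U n = (W : Set (Sp f)) := congrArg Subtype.val hn
      exact h3 ▸ hi n hin
    obtain ⟨n, hn⟩ := W.2
    exact h𝓤.1.proper (huniv ▸ hn ▸ hU n)
  · rintro _ ⟨n, rfl⟩
    exact h𝓤.1.isOpen _ (hU n)
  · refine eq_univ_of_forall fun x => ?_
    obtain ⟨i, hi⟩ := hev x
    exact ⟨U (i + 1), mem_range_self _, hi _ (Nat.lt_succ_self i)⟩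
  · rintro ⟨n, hn⟩
    exact h𝓤.1.proper (hn ▸ hU n)
  · intro x
    obtain ⟨i, hi⟩ := hev x
    refine ((Set.finite_Iic i).image U).subset ?_
    rintro _ ⟨⟨n, rfl⟩, hn⟩
    exact ⟨n, not_lt.1 fun h => hn (hi n h), rfl⟩

theorem isLusinSpace (hc : ∀ α, ∀ β < α, {ξ | ξ < β ∧ f α ξ ≠ f β ξ}.Finite)
    (hS : ∀ S : Set Node, (∀ s ∈ S, ∀ t ∈ S, le f s t → s = t) → S.Countable) :
    IsLusinSpace (Sp f) := by
  classical
  refine ⟨inferInstance, fun N hN => ?_, ?_, ?_⟩
  · obtain ⟨γ, hγ⟩ := exists_level hS {u | Disjoint (cone f u) N}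
      (fun u v hu huv => Set.disjoint_left.2 fun y hy => Set.disjoint_left.1 hu (le_trans huv hy))
      (fun s => by
        have h1 : ¬ cone f s ⊆ closure N := by
          intro h
          have h2 : cone f s ⊆ interior (closure N) := interior_maximal h (isOpen_cone s)
          rw [IsNowhereDense] at hN
          rw [hN] at h2
          exact h2 (le_refl s : (s : Sp f) ∈ cone f s)
        obtain ⟨y, hy1, hy2⟩ := Set.not_subset.1 h1
        obtain ⟨u, hu1, hu2⟩ := exists_cone hc isClosed_closure.isOpen_compl hy2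
        refine ⟨u, Set.disjoint_left.2 fun z hz hzN => hu2 hz (subset_closure hzN),
          le_trans hy1 hu1⟩)
    refine (countable_level γ).mono fun x hx => ?_
    by_contra hlt
    exact Set.disjoint_left.1 (hγ x (not_lt.1 hlt)) (le_refl x : (x : Sp f) ∈ cone f x) hx
  · have : {x : Sp f | IsOpen {x}} = ∅ := by
      refine Set.eq_empty_of_forall_notMem fun x hx => ?_
      obtain ⟨u, hu1, hu2⟩ := exists_cone hc hx (mem_singleton x)
      obtain ⟨γ, hγ⟩ := exists_bound (fun _ => u.lv)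
      obtain ⟨v, hv1, hv2, -⟩ := exists_node_ge hc u 0 (hγ 0)
      have h1 : (u : Sp f) = x := hu2 (le_refl u : (u : Sp f) ∈ cone f u)
      have h2 : (v : Sp f) = x := hu2 (hv2 : (v : Sp f) ∈ cone f u)
      have h3 : u.lv < v.lv := hv1 ▸ hγ 0
      rw [show u = v from h1.trans h2.symm] at h3
      exact lt_irrefl _ h3
    rw [this]
    exact countable_empty
  · rw [← not_countable_iff]
    intro hcount
    have h1 : (univ : Set (Sp f)).Countable := Set.countable_univ_iff.2 hcount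
    obtain ⟨b, hb⟩ := exists_ub (h1.image fun x : Sp f => Node.lv x)
    obtain ⟨u, hu, -⟩ := exists_node (f := f) (α := b) (g := f b) (by simp)
    exact lt_irrefl _ ((hb _ ⟨u, trivial, rfl⟩).trans_eq hu.symm)

/-- (1) Some forcing notion preserves `ω₁` and forces diamond. (2) Diamond implies that there is a
Tychonoff Lusin space which is a `γ`-space. -/
theorem result :
    (∃ (P : Type) (_ : Preorder P), Nonempty P ∧ ∀ p : P,
      p ∈ OmegaOnePreserved P ∧ p ∈ DiamondHolds P) ∧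
    (Diamond → ∃ (X : Type) (_ : TopologicalSpace X), T35Space X ∧ IsLusinSpace X ∧
      IsGammaSpace X) := by
  refine ⟨?_, fun hD => ?_⟩
  · obtain ⟨P, hP, hne, h⟩ := Pool.Agent.Helper292.ForceCH.exists_forcing
    exact ⟨P, hP, hne, fun p => ⟨(h p).1, (h p).2.1⟩⟩
  · obtain ⟨f, hc, hS⟩ := exists_suslin hD
    exact ⟨Sp f, inferInstance, inferInstance, isLusinSpace hc hS, isGammaSpace hc hS⟩

end Pool.Agent.Results.MP_1599f7_gt.LusinGamma
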